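import Mathlib
import Pool.Agent.H10.RP.Stm
import Pool.Graph.R_pool_sql_team_seeded_63374d34.N892.BW.Stm3
import Pool.Graph.R_pool_sql_team_seeded_63374d34.N892.BW.SUQ
import Pool.Graph.R_pool_sql_team_seeded_63374d34.N892.BW.SUQ_A
import Pool.Graph.R_pool_sql_team_seeded_63374d34.N892.BW.SUP_A

/-!
Project RP, part LTM (the linear terms), first file: elementary lemmas.
-/

set_option autoImplicit false

open MeasureTheory ENNReal Filter Topology Complex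
open scoped ComplexConjugate ContDiff FourierTransform

namespace Pool.Agent.H2.RP.LTM

open Pool.Agent.N892.BW Pool.Agent.H10.RP

/-! ### a numerical inequality -/

theorem one_sub_rpow {s t : ℝ} (hs : 0 < s) (ht : 0 ≤ t) (ht1 : t ≤ 1) :
    1 - t ^ s ≤ max 1 s * (1 - t) := by
  rcases le_total s 1 with h | h
  · have h1 : t ≤ t ^ s := by
      have := Real.rpow_le_rpow_of_exponent_ge_of_imp ht ht1 h (fun _ h => absurd h one_ne_zero)
      rwa [Real.rpow_one] at this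
    rw [max_eq_left h]
    linarith
  · have h1 := one_add_mul_self_le_rpow_one_add (s := t - 1) (by linarith) h
    rw [max_eq_right h]
    have h2 : 1 + (t - 1) = t := by ring
    rw [h2] at h1
    linarith

theorem rpow_diff {s u v : ℝ} (hs : 0 < s) (hv : 0 ≤ v) (hu : v ≤ u) :
    (u ^ s - v ^ s) * v ≤ max 1 s * u ^ s * (u - v) := by
  rcases hu.eq_or_lt with h | h
  · rw [h]
    simp
  have hu0 : 0 < u := hv.trans_lt h
  have h0 : v / u ≤ 1 := (div_le_one hu0).2 hu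
  have h1 := one_sub_rpow hs (t := v / u) (by positivity) h0
  have h2 : v ^ s = (v / u) ^ s * u ^ s := by
    rw [← Real.mul_rpow (by positivity) hu0.le, div_mul_cancel₀ _ hu0.ne']
  have h3 : u ^ s - v ^ s = (1 - (v / u) ^ s) * u ^ s := by
    rw [h2]
    ring
  have h5 : 0 ≤ 1 - v / u := by linarith
  have h4 : (u ^ s - v ^ s) ≤ max 1 s * (1 - v / u) * u ^ s := by
    rw [h3]
    gcongr
  have h6 : 0 ≤ max 1 s * (1 - v / u) * u ^ s := by positivity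
  calc (u ^ s - v ^ s) * v ≤ (max 1 s * (1 - v / u) * u ^ s) * v := by gcongr
    _ ≤ (max 1 s * (1 - v / u) * u ^ s) * u := by gcongr
    _ = _ := by field_simp

/-- `|u|^s conj u` -/
noncomputable def gg (s : ℝ) (u : ℂ) : ℂ := ((‖u‖ ^ s : ℝ) : ℂ) * conj u

theorem gg_aux {s : ℝ} (hs : 0 < s) {u v : ℂ} (h : ‖v‖ ≤ ‖u‖) :
    ‖gg s u - gg s v‖ ≤ (1 + max 1 s) * (‖u‖ + ‖v‖) ^ s * ‖u - v‖ := by
  have h1 : gg s u - gg s v =
      ((‖u‖ ^ s : ℝ) : ℂ) * conj (u - v) + ((‖u‖ ^ s - ‖v‖ ^ s : ℝ) : ℂ) * conj v := by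
    unfold gg
    push_cast
    rw [map_sub]
    ring
  have hv := norm_nonneg v
  have h2 : ‖v‖ ^ s ≤ ‖u‖ ^ s := Real.rpow_le_rpow hv h hs.le
  have h3 := rpow_diff hs hv h
  have h4 : ‖u‖ - ‖v‖ ≤ ‖u - v‖ := norm_sub_norm_le u v
  have h5 : ‖u‖ ^ s ≤ (‖u‖ + ‖v‖) ^ s := Real.rpow_le_rpow (norm_nonneg _) (by linarith) hs.le
  have h6 : 0 ≤ ‖u‖ ^ s := by positivity
  rw [h1]
  refine (norm_add_le _ _).trans ?_
  rw [norm_mul, norm_mul, Complex.norm_real, Complex.norm_real, RCLike.norm_conj, RCLike.norm_conj,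
    Real.norm_of_nonneg h6, Real.norm_of_nonneg (by linarith)]
  calc ‖u‖ ^ s * ‖u - v‖ + (‖u‖ ^ s - ‖v‖ ^ s) * ‖v‖
      ≤ ‖u‖ ^ s * ‖u - v‖ + max 1 s * ‖u‖ ^ s * (‖u‖ - ‖v‖) := by linarith
    _ ≤ ‖u‖ ^ s * ‖u - v‖ + max 1 s * ‖u‖ ^ s * ‖u - v‖ := by gcongr
    _ = (1 + max 1 s) * ‖u‖ ^ s * ‖u - v‖ := by ring
    _ ≤ _ := by gcongr

theorem gg_diff {s : ℝ} (hs : 0 < s) (u v : ℂ) :
    ‖gg s u - gg s v‖ ≤ (1 + max 1 s) * (‖u‖ + ‖v‖) ^ s * ‖u - v‖ := by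
  rcases le_total ‖v‖ ‖u‖ with h | h
  · exact gg_aux hs h
  · have h1 := gg_aux hs h
    rw [norm_sub_rev, add_comm ‖u‖, norm_sub_rev u v]
    exact h1

theorem gg_diffE {s : ℝ} (hs : 0 < s) (u v : ℂ) :
    ‖gg s u - gg s v‖ₑ ≤ ENNReal.ofReal (1 + max 1 s) * (‖u‖ₑ + ‖v‖ₑ) ^ s * ‖u - v‖ₑ := by
  have h := ENNReal.ofReal_le_ofReal (gg_diff hs u v)
  rw [ENNReal.ofReal_mul (by positivity), ENNReal.ofReal_mul (by positivity),
    ← ENNReal.ofReal_rpow_of_nonneg (by positivity) hs.le,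
    ENNReal.ofReal_add (norm_nonneg _) (norm_nonneg _)] at h
  simpa only [ofReal_norm] using h

theorem gg_cont {s : ℝ} (hs : 0 < s) {u : ℂ → ℂ} (hu : Continuous u) :
    Continuous fun x => gg s (u x) := by
  unfold gg
  refine Continuous.mul (Complex.continuous_ofReal.comp ?_) (Complex.continuous_conj.comp hu)
  exact hu.norm.rpow_const fun x => Or.inr hs.le

theorem gg_bdd {s : ℝ} (hs : 0 < s) {u : ℂ → ℂ} {K : ℝ} (hu : ∀ x, ‖u x‖ ≤ K) (x : ℂ) :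
    ‖gg s (u x)‖ ≤ K ^ s * K := by
  have h1 := hu x
  have h2 := norm_nonneg (u x)
  unfold gg
  rw [norm_mul, Complex.norm_real, RCLike.norm_conj, Real.norm_of_nonneg (by positivity)]
  have h3 : 0 ≤ K := h2.trans h1
  gcongr

theorem gg_zero {s : ℝ} : gg s 0 = 0 := by
  unfold gg
  simp

theorem amgmR {m : ℝ} (hm : 1 < m) (x y : ℝ≥0∞) : x ^ (m - 1) * y ≤ x ^ m + y ^ m := by
  have h0 : ∀ z : ℝ≥0∞, z ^ (m - 1) * z = z ^ m := by
    intro z
    conv_lhs => rw [← ENNReal.rpow_one z, ← ENNReal.rpow_mul, one_mul]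
    rw [← ENNReal.rpow_add_of_nonneg _ _ (by linarith) (by norm_num)]
    congr 1
    ring
  rcases le_total x y with h | h
  · calc x ^ (m - 1) * y ≤ y ^ (m - 1) * y := by
          gcongr
      _ = y ^ m := h0 y
      _ ≤ x ^ m + y ^ m := le_add_self
  · calc x ^ (m - 1) * y ≤ x ^ (m - 1) * x := by gcongr
      _ = x ^ m := h0 x
      _ ≤ x ^ m + y ^ m := le_self_add

end Pool.Agent.H2.RP.LTM
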