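import Mathlib
import Pool.Agent.H2.RP.LTM_A
import Pool.Graph.R_pool_sql_team_seeded_63374d34.N892.BW.WLT
import Pool.Graph.R_pool_sql_team_seeded_63374d34.N892.BW.LPF

/-!
Project RP, part LTM (the linear terms), second file: the low-pass kernel.
-/

set_option autoImplicit false

open MeasureTheory ENNReal Filter Topology Complex
open scoped ComplexConjugate ContDiff FourierTransform

namespace Pool.Agent.H2.RP.LTM

open Pool.Agent.N892.BW Pool.Agent.H10.RP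

/-- moments of the low-pass kernels -/
theorem lp_mom (hB : S_BAS) (L : ℕ) : ∃ K : ℝ, 0 ≤ K ∧ ∀ β b : ℝ, 0 < β → 0 ≤ b → b ≤ 2 * β →
    ∫⁻ y : ℂ, ‖Fi (lp β) y‖ₑ * ENNReal.ofReal (‖y‖ * (1 + b * ‖y‖) ^ L) ≤
      ENNReal.ofReal (K / β) := by
  obtain ⟨g, hg⟩ : ∃ g : ℂ → ℝ≥0∞, ∀ z, g z = ‖Fi (lp 1) z‖ₑ *
    ENNReal.ofReal (‖z‖ * (1 + 2 * ‖z‖) ^ L) := ⟨_, fun _ => rfl⟩
  obtain ⟨-, hd, -⟩ := hB 2 (lp 1) (WLT.lp_Bd one_pos (by norm_num))
  obtain ⟨C, hC⟩ := hd (L + 4)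
  have hC0 : 0 ≤ C := le_trans (by positivity) (hC 0)
  have hjap : Integrable fun x : ℂ => (1 + ‖x‖) ^ (-(3 : ℝ)) := by
    apply integrable_one_add_norm
    rw [Complex.finrank_real_complex]
    norm_num
  have hfin : ∫⁻ z, g z ≠ ⊤ := by
    have h1 : ∫⁻ z, g z ≤
        ∫⁻ y : ℂ, ENNReal.ofReal (C * 2 ^ L) * ENNReal.ofReal ((1 + ‖y‖) ^ (-(3 : ℝ))) := by
      refine lintegral_mono fun y => ?_
      have hy := norm_nonneg y
      rw [hg, ← ofReal_norm, ← ENNReal.ofReal_mul (norm_nonneg _),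
        ← ENNReal.ofReal_mul (by positivity)]
      apply ENNReal.ofReal_le_ofReal
      rw [Real.rpow_neg (by positivity), show (3 : ℝ) = ((3 : ℕ) : ℝ) by norm_num,
        Real.rpow_natCast, ← div_eq_mul_inv, le_div_iff₀ (by positivity)]
      have h2 : (1 + 2 * ‖y‖) ^ L ≤ (2 * (1 + ‖y‖)) ^ L := by
        gcongr
        linarith
      rw [mul_pow] at h2
      calc ‖Fi (lp 1) y‖ * (‖y‖ * (1 + 2 * ‖y‖) ^ L) * (1 + ‖y‖) ^ 3
          ≤ ‖Fi (lp 1) y‖ * ((1 + ‖y‖) * (2 ^ L * (1 + ‖y‖) ^ L)) * (1 + ‖y‖) ^ 3 := by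
            gcongr
            linarith
        _ = (‖Fi (lp 1) y‖ * (1 + ‖y‖) ^ (L + 4)) * 2 ^ L := by ring
        _ ≤ C * 2 ^ L := by
            have := hC y
            gcongr
    refine ne_top_of_le_ne_top ?_ h1
    rw [lintegral_const_mul' _ _ ENNReal.ofReal_ne_top]
    refine ENNReal.mul_ne_top ENNReal.ofReal_ne_top ?_
    have h3 : ∫⁻ y : ℂ, ENNReal.ofReal ((1 + ‖y‖) ^ (-(3 : ℝ))) =
        ∫⁻ y : ℂ, ‖(1 + ‖y‖) ^ (-(3 : ℝ))‖ₑ := by
      refine lintegral_congr fun y => ?_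
      rw [← ofReal_norm, Real.norm_of_nonneg (by positivity)]
    rw [h3]
    exact hjap.2.ne
  refine ⟨_, ENNReal.toReal_nonneg (a := ∫⁻ z, g z), fun β b hβ hb hbβ => ?_⟩
  have h1 : ∀ y : ℂ, ‖Fi (lp β) y‖ₑ * ENNReal.ofReal (‖y‖ * (1 + b * ‖y‖) ^ L) ≤
      ENNReal.ofReal β * g ((β : ℂ) * y) := by
    intro y
    have hy := norm_nonneg y
    have hn : ‖(β : ℂ) * y‖ = β * ‖y‖ := by
      rw [norm_mul, Complex.norm_real, Real.norm_of_nonneg hβ.le]
    rw [hg, hn, WLT.Fi_lp hβ, enorm_mul, ← ofReal_norm ((β ^ 2 : ℝ) : ℂ), Complex.norm_real,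
      Real.norm_of_nonneg (by positivity), mul_comm (ENNReal.ofReal (β ^ 2)), mul_assoc,
      mul_left_comm (ENNReal.ofReal β), ← ENNReal.ofReal_mul (by positivity),
      ← ENNReal.ofReal_mul (by positivity)]
    refine mul_le_mul' le_rfl (ENNReal.ofReal_le_ofReal ?_)
    have h2 : b * ‖y‖ ≤ 2 * (β * ‖y‖) := by nlinarith
    calc β ^ 2 * (‖y‖ * (1 + b * ‖y‖) ^ L)
        ≤ β ^ 2 * (‖y‖ * (1 + 2 * (β * ‖y‖)) ^ L) := by gcongr
      _ = β * (β * ‖y‖ * (1 + 2 * (β * ‖y‖)) ^ L) := by ring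
  refine (lintegral_mono h1).trans ?_
  rw [lintegral_const_mul' _ _ ENNReal.ofReal_ne_top, SUP.lint_scale hβ.ne' g, ← mul_assoc,
    ← ENNReal.ofReal_mul hβ.le, div_eq_inv_mul, ENNReal.ofReal_mul (p := β⁻¹) (by positivity),
    ENNReal.ofReal_toReal hfin]
  refine mul_le_mul' (ENNReal.ofReal_le_ofReal (le_of_eq ?_)) le_rfl
  field_simp

/-- the mass of the low-pass kernels -/
theorem lp_int (hB : S_BAS) {β : ℝ} (hβ : 0 < β) : ∫ y, Fi (lp β) y = 1 := by
  obtain ⟨-, -, -, hi, -⟩ := hB (2 * β) (lp β) (WLT.lp_Bd hβ le_rfl)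
  have h1 := hi 0
  rw [LPF.lp_one β 0 hβ (by rw [norm_zero]; exact hβ.le)] at h1
  rw [h1]
  refine integral_congr_ae (Eventually.of_forall fun y => ?_)
  have : e2 y 0 = 1 := by
    unfold e2
    simp
  simp only [this, map_one, one_mul]

/-- high frequencies are orthogonal to slowly varying functions -/
theorem kernel_id (hB : S_BAS) (hC : S_CNV) {β b' : ℝ} (hβ : 0 < β) {h : ℂ → ℂ}
    (H : Bd (2 * β) b' h) {G : ℂ → ℂ} (hG : Continuous G) {MG : ℝ} (hMG : ∀ x, ‖G x‖ ≤ MG) :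
    ‖∫ x, G x * Fi h x‖ₑ ≤
      ∫⁻ x, ∫⁻ y, ‖Fi (lp β) y‖ₑ * ‖G (x + y) - G x‖ₑ * ‖Fi h x‖ₑ := by
  have hlp : Bd 0 (max (2 * β) b') (lp β) := WLT.lp_Bd hβ (le_max_left _ _)
  have hh : Bd 0 (max (2 * β) b') h := SUP.Bd_mono (SUP.Bd_zero H) le_rfl (le_max_right _ _)
  have hz : ∀ x, ∫ z, Fi (lp β) (x - z) * Fi h z = 0 := by
    intro x
    rw [← (hC _ _ _ hlp hh x).2]
    have h1 : (fun ξ => lp β ξ * h ξ) = fun _ => 0 := by
      funext ξ
      by_cases h2 : h ξ = 0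
      · rw [h2, mul_zero]
      · rw [LPF.lp_zero β ξ hβ (H.2 ξ h2).1, zero_mul]
    rw [h1]
    exact SUQ.Fi_zero x
  have h1 := lp_int hB hβ
  obtain ⟨hψc, -, ⟨-, hψi, -⟩, -⟩ := hB _ _ hlp
  obtain ⟨hAc, -, ⟨-, hAi, -⟩, -⟩ := hB _ _ hh
  obtain ⟨ψ, hψ⟩ : ∃ ψ : ℂ → ℂ, ψ = Fi (lp β) := ⟨_, rfl⟩
  obtain ⟨A, hA⟩ : ∃ A : ℂ → ℂ, A = Fi h := ⟨_, rfl⟩
  rw [← hψ] at hψc hψi h1 ⊢
  rw [← hA] at hAc hAi ⊢
  rw [← hψ, ← hA] at hz
  have hint : Integrable (fun p : ℂ × ℂ => A p.2 * ψ (p.1 - p.2)) (volume.prod volume) :=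
    Integrable.convolution_integrand (ContinuousLinearMap.mul ℂ ℂ) hAi hψi
  have hint2 : Integrable (fun p : ℂ × ℂ => G p.1 * (A p.2 * ψ (p.1 - p.2)))
      (volume.prod volume) := by
    refine hint.bdd_mul (c := MG) ?_ ?_
    · exact (hG.comp continuous_fst).aestronglyMeasurable
    · exact Eventually.of_forall fun p => hMG _
  have hE1 : ∫ x, ∫ z, G x * (A z * ψ (x - z)) = 0 := by
    have : ∀ x, ∫ z, G x * (A z * ψ (x - z)) = 0 := by
      intro x
      rw [integral_const_mul]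
      have h2 : ∫ z, A z * ψ (x - z) = ∫ z, ψ (x - z) * A z := by
        congr 1
        funext z
        ring
      rw [h2, hz, mul_zero]
    simp only [this, integral_zero]
  have hin : ∀ z, ∫ x, G x * (A z * ψ (x - z)) = A z * ∫ y, G (z + y) * ψ y := by
    intro z
    rw [← integral_sub_right_eq_self (fun y => G (z + y) * ψ y) z, ← integral_const_mul]
    congr 1
    funext x
    rw [add_sub_cancel]
    ring
  have hE2 : ∫ z, A z * ∫ y, G (z + y) * ψ y = 0 := by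
    rw [← hE1, integral_integral_swap hint2]
    congr 1
    funext z
    rw [hin]
  have hI2 : Integrable fun z => A z * ∫ y, G (z + y) * ψ y := by
    have h2 := hint2.integral_prod_right
    refine h2.congr (Eventually.of_forall fun z => ?_)
    exact hin z
  have hI1 : Integrable fun z => G z * A z := by
    refine hAi.bdd_mul (c := MG) hG.aestronglyMeasurable (Eventually.of_forall hMG)
  have hI3 : ∀ z, Integrable fun y => G (z + y) * ψ y := by
    intro z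
    refine hψi.bdd_mul (c := MG) ?_ (Eventually.of_forall fun y => hMG _)
    exact (hG.comp (continuous_const.add continuous_id)).aestronglyMeasurable
  have hkey : ∫ z, G z * A z = ∫ z, A z * ∫ y, (G z - G (z + y)) * ψ y := by
    calc ∫ z, G z * A z = (∫ z, G z * A z) - ∫ z, A z * ∫ y, G (z + y) * ψ y := by
          rw [hE2, sub_zero]
      _ = ∫ z, (G z * A z - A z * ∫ y, G (z + y) * ψ y) := (integral_sub hI1 hI2).symm
      _ = _ := by
          congr 1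
          funext z
          have h3 : ∫ y, (G z - G (z + y)) * ψ y = G z - ∫ y, G (z + y) * ψ y := by
            have h4 : (fun y => (G z - G (z + y)) * ψ y) =
                fun y => G z * ψ y - G (z + y) * ψ y := by
              funext y
              ring
            rw [h4, integral_sub (hψi.const_mul _) (hI3 z), integral_const_mul, h1, mul_one]
          rw [h3]
          ring
  rw [hkey]
  refine (enorm_integral_le_lintegral_enorm _).trans (lintegral_mono fun z => ?_)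
  rw [enorm_mul, mul_comm]
  rw [lintegral_mul_const' _ _ enorm_ne_top]
  refine mul_le_mul' ?_ le_rfl
  refine (enorm_integral_le_lintegral_enorm _).trans (lintegral_mono fun y => ?_)
  rw [enorm_mul, mul_comm]
  refine mul_le_mul' le_rfl (le_of_eq ?_)
  rw [← enorm_neg]
  congr 1
  ring

end Pool.Agent.H2.RP.LTM
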