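import Mathlib
import Pool.Agent.H2.RP.LTM_A
import Pool.Agent.H2.RP.LTM_B

/-!
Project RP, part LTM: the linear terms.
-/

set_option autoImplicit false

open MeasureTheory ENNReal Filter Topology Complex
open scoped ComplexConjugate ContDiff FourierTransform

namespace Pool.Agent.H2.RP.LTM

open Pool.Agent.N892.BW Pool.Agent.H10.RP

theorem half (p q : ℝ≥0∞) : p ^ (1 / 2 : ℝ) * q ≤ p + q ^ 2 := by
  have h := amgmR (m := 2) (by norm_num) (p ^ (1 / 2 : ℝ)) q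
  rw [show (2 : ℝ) - 1 = 1 by norm_num, ENNReal.rpow_one, ← ENNReal.rpow_mul,
    show (1 / 2 : ℝ) * 2 = 1 by norm_num, ENNReal.rpow_one,
    show (2 : ℝ) = ((2 : ℕ) : ℝ) by norm_num, ENNReal.rpow_natCast] at h
  exact h

theorem sqrt_le {p q : ℝ≥0∞} (h : p ^ 2 ≤ q) : p ≤ q ^ (1 / 2 : ℝ) := by
  have h1 := ENNReal.rpow_le_rpow h (z := 1 / 2) (by norm_num)
  rwa [← ENNReal.rpow_natCast, ← ENNReal.rpow_mul,
    show ((2 : ℕ) : ℝ) * (1 / 2) = 1 by norm_num, ENNReal.rpow_one] at h1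

theorem sum_lint (F : ℕ → ℂ → ℝ≥0∞) (M : ℕ) :
    ∑ k ∈ Finset.range M, ∫⁻ x, F k x ≤ ∫⁻ x, ∑ k ∈ Finset.range M, F k x := by
  induction M with
  | zero => simp
  | succ M ih =>
    rw [Finset.sum_range_succ]
    simp only [Finset.sum_range_succ]
    exact (add_le_add ih le_rfl).trans (le_lintegral_add _ _)

/-- the averages of the squares -/
noncomputable def XX (b : ℕ → ℝ) (H : ℕ → ℂ → ℂ) (x : ℂ) (j : ℕ) : ℝ≥0∞ :=
  cv (PP (b j)) (fun z => ‖Fi (H j) z‖ₑ ^ 2) x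

/-- the bound for one term -/
theorem step (hB : S_BAS) (hC : S_CNV) {μ M : ℕ} {a b : ℕ → ℝ} {H : ℕ → ℂ → ℂ} (hμ : 1 ≤ μ)
    (hS : Sep μ M a b H) {C1 C2 cP K s : ℝ} (hs : 0 < s) (hC1 : 0 ≤ C1) (hC2 : 0 ≤ C2)
    (hcP0 : 0 ≤ cP) (hK : 0 ≤ K)
    (hMAJ : ∀ (b : ℝ) (h : ℂ → ℂ) (x y : ℂ), 0 < b → Bd 0 b h →
      ‖Fi h (x + y) - Fi h x‖ₑ ≤
        ENNReal.ofReal (C1 * (b * ‖y‖) * (1 + b * ‖y‖) ^ 4) * cv (PP b) (fun z => ‖Fi h z‖ₑ) x)
    (hLOW : ∀ (b b' : ℝ) (h₁ h₂ : ℂ → ℂ) (x y : ℂ), 0 < b → Bd 0 b h₁ → Bd (2 * b) b' h₂ →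
      ‖Fi h₁ (x + y)‖ₑ ≤ ENNReal.ofReal (C2 * (1 + b * ‖y‖) ^ 4) *
        mx (fun z => ‖Fi (fun ξ => h₁ ξ + h₂ ξ) z‖ₑ) x)
    (hcP : ∀ β : ℝ, 0 < β → ∫⁻ x, PP β x ≤ ENNReal.ofReal cP)
    (hmom : ∀ β b : ℝ, 0 < β → 0 ≤ b → b ≤ 2 * β →
      ∫⁻ y : ℂ, ‖Fi (lp β) y‖ₑ * ENNReal.ofReal (‖y‖ * (1 + b * ‖y‖) ^ (⌈4 * s⌉₊ + 4)) ≤
        ENNReal.ofReal (K / β))
    {W : ℂ → ℝ≥0∞} (hW : W = mx (fun z => ‖Fi (sm H M) z‖ₑ))
    {k : ℕ} (hk : k + 1 < M) {om : ℝ} (hom : b k ≤ om * a (k + 1)) :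
    ‖∫ x, gg s (Fi (sm H (k + 1)) x) * Fi (H (k + 1)) x‖ₑ ≤
      ENNReal.ofReal ((1 + max 1 s) * (2 * C2) ^ s * √(2 * C1 ^ 2 * cP) * (2 * K) * om) *
        ∫⁻ x, W x ^ s * (SUQ.SS (XX b H x) (k + 1) + ‖Fi (H (k + 1)) x‖ₑ ^ 2) := by
  have hbk : 0 < b k := SUQ.bt_pos hS (k := k) (by omega)
  have hBd := SUQ.Bd_sm hμ hS (k + 1) hk.le
  have hbt : SUQ.bt b (k + 1) = b k := rfl
  have hgap := SUQ.bt_gap hμ hS hk
  obtain ⟨ha0, -, hBA, -⟩ := hS (k + 1) hk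
  rw [hbt] at hBd hgap
  obtain ⟨β, hβ⟩ : ∃ β : ℝ, β = a (k + 1) / 2 := ⟨_, rfl⟩
  have hβ0 : 0 < β := by rw [hβ]; positivity
  have hβ2 : 2 * β = a (k + 1) := by rw [hβ]; ring
  rw [← hβ2] at hBA
  obtain ⟨u, hu⟩ : ∃ u : ℂ → ℂ, u = Fi (sm H (k + 1)) := ⟨_, rfl⟩
  obtain ⟨huc, -, ⟨-, -, Mu, hMu⟩, -⟩ := hB _ _ hBd
  rw [← hu] at huc hMu ⊢
  have h0 := kernel_id hB hC hβ0 hBA (gg_cont hs huc) (gg_bdd hs hMu)
  refine h0.trans ?_
  -- the pointwise bounds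
  have hrest : ∀ x y, ‖u (x + y)‖ₑ ≤ ENNReal.ofReal (C2 * (1 + b k * ‖y‖) ^ 4) * W x := by
    intro x y
    obtain ⟨d, hd⟩ : ∃ d, k + 1 + d = M := ⟨M - (k + 1), by omega⟩
    have h2 := SUQ.Bd_rest hμ hS (k := k + 1) d (by omega)
    rw [hbt, hd] at h2
    have h3 := hLOW (b k) _ _ _ x y hbk hBd h2
    have h4 : (fun ξ => sm H (k + 1) ξ + (sm H M ξ - sm H (k + 1) ξ)) = sm H M := by
      funext ξ
      ring
    rw [h4, ← hW, ← hu] at h3
    exact h3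
  have hsum : ∀ x y, ‖u (x + y)‖ₑ + ‖u x‖ₑ ≤
      ENNReal.ofReal (2 * C2 * (1 + b k * ‖y‖) ^ 4) * W x := by
    intro x y
    have hy := norm_nonneg y
    have h2 := hrest x 0
    rw [add_zero, norm_zero, mul_zero, add_zero, one_pow, mul_one] at h2
    have h3 : ENNReal.ofReal C2 * W x ≤ ENNReal.ofReal (C2 * (1 + b k * ‖y‖) ^ 4) * W x := by
      refine mul_le_mul' (ENNReal.ofReal_le_ofReal ?_) le_rfl
      have : (1 : ℝ) ≤ (1 + b k * ‖y‖) ^ 4 := one_le_pow₀ (by nlinarith)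
      nlinarith
    calc ‖u (x + y)‖ₑ + ‖u x‖ₑ ≤ ENNReal.ofReal (C2 * (1 + b k * ‖y‖) ^ 4) * W x +
          ENNReal.ofReal (C2 * (1 + b k * ‖y‖) ^ 4) * W x :=
            add_le_add (hrest x y) (h2.trans h3)
      _ = ENNReal.ofReal (2 * C2 * (1 + b k * ‖y‖) ^ 4) * W x := by
          rw [← add_mul, ← ENNReal.ofReal_add (by positivity) (by positivity)]
          congr 2
          ring
  have hsumr : ∀ x y, (‖u (x + y)‖ₑ + ‖u x‖ₑ) ^ s ≤
      ENNReal.ofReal ((2 * C2) ^ s * (1 + b k * ‖y‖) ^ ⌈4 * s⌉₊) * W x ^ s := by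
    intro x y
    have hy := norm_nonneg y
    have h1y : 1 ≤ 1 + b k * ‖y‖ := by nlinarith
    refine (ENNReal.rpow_le_rpow (hsum x y) hs.le).trans ?_
    rw [ENNReal.mul_rpow_of_nonneg _ _ hs.le, ENNReal.ofReal_rpow_of_nonneg (by positivity) hs.le]
    refine mul_le_mul' (ENNReal.ofReal_le_ofReal ?_) le_rfl
    rw [Real.mul_rpow (by positivity) (by positivity)]
    refine mul_le_mul_of_nonneg_left ?_ (by positivity)
    rw [← Real.rpow_natCast (1 + b k * ‖y‖) 4, ← Real.rpow_mul (by positivity),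
      ← Real.rpow_natCast (1 + b k * ‖y‖) ⌈4 * s⌉₊]
    refine Real.rpow_le_rpow_of_exponent_le h1y ?_
    have := Nat.le_ceil (4 * s)
    push_cast
    exact this
  have hdiff : ∀ x y, ‖u (x + y) - u x‖ₑ ≤
      ENNReal.ofReal (√(2 * C1 ^ 2 * cP) * (‖y‖ * (1 + b k * ‖y‖) ^ 4) * b k) *
        (SUQ.SS (XX b H x) (k + 1)) ^ (1 / 2 : ℝ) := by
    intro x y
    have hy := norm_nonneg y
    have h2 := SUQ.diff_bd hB hμ hS hC1 hcP0 hMAJ hcP x y (k + 1) hk.le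
    rw [← hu, hbt] at h2
    have h3 := SUQ.SS_bd hμ hS (XX b H x) (k + 1) hk.le
    rw [hbt] at h3
    have h4 : SUQ.RR b H (k + 1) x ≤ ENNReal.ofReal (b k) * SUQ.SS (XX b H x) (k + 1) := h3
    have h5 : ‖u (x + y) - u x‖ₑ ^ 2 ≤
        ENNReal.ofReal ((√(2 * C1 ^ 2 * cP) * (‖y‖ * (1 + b k * ‖y‖) ^ 4) * b k) ^ 2) *
          SUQ.SS (XX b H x) (k + 1) := by
      refine h2.trans ((mul_le_mul' le_rfl h4).trans ?_)
      rw [← mul_assoc, ← ENNReal.ofReal_mul (by positivity)]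
      refine mul_le_mul' (ENNReal.ofReal_le_ofReal (le_of_eq ?_)) le_rfl
      rw [mul_pow, mul_pow, Real.sq_sqrt (by positivity)]
      ring
    have h6 := sqrt_le h5
    rw [ENNReal.mul_rpow_of_nonneg _ _ (by norm_num),
      ENNReal.ofReal_rpow_of_nonneg (by positivity) (by norm_num), ← Real.sqrt_eq_rpow,
      Real.sqrt_sq (by positivity)] at h6
    exact h6
  have hpt : ∀ x y, ‖Fi (lp β) y‖ₑ * ‖gg s (u (x + y)) - gg s (u x)‖ₑ * ‖Fi (H (k + 1)) x‖ₑ ≤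
      (‖Fi (lp β) y‖ₑ * ENNReal.ofReal (‖y‖ * (1 + b k * ‖y‖) ^ (⌈4 * s⌉₊ + 4))) *
      (ENNReal.ofReal ((1 + max 1 s) * (2 * C2) ^ s * √(2 * C1 ^ 2 * cP) * b k) *
        (W x ^ s * (SUQ.SS (XX b H x) (k + 1) + ‖Fi (H (k + 1)) x‖ₑ ^ 2))) := by
    intro x y
    have hy := norm_nonneg y
    rw [mul_assoc, mul_assoc]
    refine mul_le_mul' le_rfl ?_
    calc ‖gg s (u (x + y)) - gg s (u x)‖ₑ * ‖Fi (H (k + 1)) x‖ₑ
        ≤ (ENNReal.ofReal (1 + max 1 s) * (‖u (x + y)‖ₑ + ‖u x‖ₑ) ^ s * ‖u (x + y) - u x‖ₑ) *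
            ‖Fi (H (k + 1)) x‖ₑ := mul_le_mul' (gg_diffE hs _ _) le_rfl
      _ ≤ (ENNReal.ofReal (1 + max 1 s) *
            (ENNReal.ofReal ((2 * C2) ^ s * (1 + b k * ‖y‖) ^ ⌈4 * s⌉₊) * W x ^ s) *
            (ENNReal.ofReal (√(2 * C1 ^ 2 * cP) * (‖y‖ * (1 + b k * ‖y‖) ^ 4) * b k) *
              (SUQ.SS (XX b H x) (k + 1)) ^ (1 / 2 : ℝ))) * ‖Fi (H (k + 1)) x‖ₑ := by
          have e1 := hsumr x y
          have e2 := hdiff x y
          gcongr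
      _ = (ENNReal.ofReal (1 + max 1 s) *
            ENNReal.ofReal ((2 * C2) ^ s * (1 + b k * ‖y‖) ^ ⌈4 * s⌉₊) *
            ENNReal.ofReal (√(2 * C1 ^ 2 * cP) * (‖y‖ * (1 + b k * ‖y‖) ^ 4) * b k)) *
            (W x ^ s * ((SUQ.SS (XX b H x) (k + 1)) ^ (1 / 2 : ℝ) * ‖Fi (H (k + 1)) x‖ₑ)) := by
          ring
      _ ≤ (ENNReal.ofReal (1 + max 1 s) *
            ENNReal.ofReal ((2 * C2) ^ s * (1 + b k * ‖y‖) ^ ⌈4 * s⌉₊) *
            ENNReal.ofReal (√(2 * C1 ^ 2 * cP) * (‖y‖ * (1 + b k * ‖y‖) ^ 4) * b k)) *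
            (W x ^ s * (SUQ.SS (XX b H x) (k + 1) + ‖Fi (H (k + 1)) x‖ₑ ^ 2)) := by
          have e1 := half (SUQ.SS (XX b H x) (k + 1)) ‖Fi (H (k + 1)) x‖ₑ
          gcongr
      _ = _ := by
          rw [← mul_assoc (ENNReal.ofReal (‖y‖ * _))]
          congr 1
          rw [← ENNReal.ofReal_mul (by positivity), ← ENNReal.ofReal_mul (by positivity),
            ← ENNReal.ofReal_mul (by positivity)]
          congr 1
          rw [pow_add]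
          ring
  have hwm : Measurable fun y : ℂ => ‖Fi (lp β) y‖ₑ *
      ENNReal.ofReal (‖y‖ * (1 + b k * ‖y‖) ^ (⌈4 * s⌉₊ + 4)) := by
    refine Measurable.mul ?_ (Measurable.ennreal_ofReal ?_)
    · exact (hB _ _ (WLT.lp_Bd hβ0 le_rfl)).1.measurable.enorm
    · fun_prop
  calc ∫⁻ x, ∫⁻ y, ‖Fi (lp β) y‖ₑ * ‖gg s (u (x + y)) - gg s (u x)‖ₑ * ‖Fi (H (k + 1)) x‖ₑ
      ≤ ∫⁻ x, ENNReal.ofReal (K / β) *
          (ENNReal.ofReal ((1 + max 1 s) * (2 * C2) ^ s * √(2 * C1 ^ 2 * cP) * b k) *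
        (W x ^ s * (SUQ.SS (XX b H x) (k + 1) + ‖Fi (H (k + 1)) x‖ₑ ^ 2))) := by
        refine lintegral_mono fun x => ?_
        refine (lintegral_mono (hpt x)).trans ?_
        rw [lintegral_mul_const _ hwm]
        exact mul_le_mul' (hmom β (b k) hβ0 hbk.le (by linarith)) le_rfl
    _ = (ENNReal.ofReal (K / β) *
          ENNReal.ofReal ((1 + max 1 s) * (2 * C2) ^ s * √(2 * C1 ^ 2 * cP) * b k)) *
        ∫⁻ x, (W x ^ s * (SUQ.SS (XX b H x) (k + 1) + ‖Fi (H (k + 1)) x‖ₑ ^ 2)) := by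
        rw [lintegral_const_mul' _ _ ENNReal.ofReal_ne_top,
          lintegral_const_mul' _ _ ENNReal.ofReal_ne_top]
        exact (mul_assoc _ _ _).symm
    _ ≤ _ := by
        refine mul_le_mul' ?_ le_rfl
        rw [← ENNReal.ofReal_mul (by positivity)]
        refine ENNReal.ofReal_le_ofReal ?_
        have e1 : b k / β ≤ 2 * om := by
          rw [div_le_iff₀ hβ0]
          nlinarith
        have e2 : 0 ≤ (1 + max 1 s) * (2 * C2) ^ s * √(2 * C1 ^ 2 * cP) * K := by positivity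
        calc K / β * ((1 + max 1 s) * (2 * C2) ^ s * √(2 * C1 ^ 2 * cP) * b k)
            = ((1 + max 1 s) * (2 * C2) ^ s * √(2 * C1 ^ 2 * cP) * K) * (b k / β) := by ring
          _ ≤ ((1 + max 1 s) * (2 * C2) ^ s * √(2 * C1 ^ 2 * cP) * K) * (2 * om) :=
              mul_le_mul_of_nonneg_left e1 e2
          _ = _ := by ring

/-- the maximal function, the averages and the square function -/
theorem bounds (hB : S_BAS) (h4 : S_HLM) (h5 : R_DMX) (h8 : R_LPF) {m : ℝ} (hm : 1 < m) {μ : ℕ}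
    (hμ : 1 ≤ μ) :
    ∃ C3 : ℝ, 0 ≤ C3 ∧ ∀ (M : ℕ) (a b : ℕ → ℝ) (H : ℕ → ℂ → ℂ), Sep μ M a b H →
      ∫⁻ x, (mx (fun z => ‖Fi (sm H M) z‖ₑ) x) ^ (2 * m - 2) *
        (2 * (∑ j ∈ Finset.range M, XX b H x j) + ∑ j ∈ Finset.range M, ‖Fi (H j) x‖ₑ ^ 2) ≤
        ENNReal.ofReal C3 * Nr m (Fi (sm H M)) := by
  obtain ⟨Ch, hCh, hH⟩ := h4 (2 * m) (by linarith)
  obtain ⟨Cd, hCd, hDm⟩ := h5 m hm.le
  obtain ⟨Cl, hCl, hL⟩ := h8 m μ hm.le hμ
  refine ⟨3 * Ch + 2 * (Cd * Cl) + Cl, by positivity, fun M a b H hS => ?_⟩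
  have hwc : Continuous (Fi (sm H M)) := (hB _ _ (SUQ.Bd_sm hμ hS M le_rfl)).1
  obtain ⟨W, hW⟩ : ∃ W : ℂ → ℝ≥0∞, W = mx (fun z => ‖Fi (sm H M) z‖ₑ) := ⟨_, rfl⟩
  obtain ⟨hWm, hWi⟩ := hH (fun z => ‖Fi (sm H M) z‖ₑ) hwc.measurable.enorm
  rw [← hW] at hWm hWi ⊢
  have hfc : ∀ j, j < M → Continuous (Fi (H j)) := by
    intro j hj
    obtain ⟨-, -, h3, -⟩ := hS j hj
    exact (hB _ _ (SUP.Bd_zero h3)).1
  have hGm : ∀ j, j < M → Measurable fun x => XX b H x j := by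
    intro j hj
    exact SUQ.cv_meas (SUQ.PP_meas _) ((hfc j hj).measurable.enorm.pow_const 2)
  -- the square function of the averages
  have hsq : ∫⁻ x, (∑ j ∈ Finset.range M, XX b H x j) ^ m ≤
      ENNReal.ofReal (Cd * Cl) * Nr m (Fi (sm H M)) := by
    have h1 := hDm M (fun i => if i < M then b i else 1)
      (fun i x => if i < M then ‖Fi (H i) x‖ₑ ^ 2 else 0) (fun i => by
        by_cases hi : i < M
        · simp only [hi, if_true]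
          exact SUQ.bt_pos hS hi
        · simp only [hi, if_false]
          norm_num) (fun i => by
        by_cases hi : i < M
        · simp only [hi, if_true]
          exact (hfc i hi).measurable.enorm.pow_const 2
        · simp only [hi, if_false]
          exact measurable_const)
    have h2 : ∫⁻ x, (∑ i ∈ Finset.range M, cv (PP (if i < M then b i else 1))
        ((fun (i : ℕ) (x : ℂ) => if i < M then ‖Fi (H i) x‖ₑ ^ 2 else 0) i) x) ^ m =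
        ∫⁻ x, (∑ j ∈ Finset.range M, XX b H x j) ^ m := by
      refine lintegral_congr fun x => ?_
      congr 1
      refine Finset.sum_congr rfl fun j hj => ?_
      have hj' := Finset.mem_range.1 hj
      simp only [hj', if_true]
      rfl
    have h3 : ∫⁻ x, (∑ i ∈ Finset.range M,
        (fun (i : ℕ) (x : ℂ) => if i < M then ‖Fi (H i) x‖ₑ ^ 2 else 0) i x) ^ m = Sr m M H := by
      unfold Sr
      refine lintegral_congr fun x => ?_
      congr 1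
      refine Finset.sum_congr rfl fun j hj => ?_
      have hj' := Finset.mem_range.1 hj
      simp only [hj', if_true]
    rw [← h2]
    refine h1.trans ?_
    rw [h3, ENNReal.ofReal_mul hCd.le, mul_assoc]
    exact mul_le_mul' le_rfl (hL M a b H hS)
  -- the maximal function
  have hpw : ∀ z : ℝ≥0∞, (z ^ 2) ^ m = z ^ (2 * m) := by
    intro z
    rw [← ENNReal.rpow_natCast, ← ENNReal.rpow_mul]
    norm_num
  have hmx : ∫⁻ x, (W x ^ 2) ^ m ≤ ENNReal.ofReal Ch * Nr m (Fi (sm H M)) := by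
    simp only [hpw]
    exact hWi
  have hXm : Measurable fun x => (∑ j ∈ Finset.range M, XX b H x j) ^ m := by
    refine Measurable.pow_const ?_ m
    exact Finset.measurable_fun_sum _ fun j hj => hGm j (Finset.mem_range.1 hj)
  have hWmm : Measurable fun x => (W x ^ 2) ^ m := (hWm.pow_const 2).pow_const m
  have hs2 : ∀ z : ℝ≥0∞, z ^ (2 * m - 2) = (z ^ 2) ^ (m - 1) := by
    intro z
    rw [← ENNReal.rpow_natCast, ← ENNReal.rpow_mul]
    congr 1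
    push_cast
    ring
  calc ∫⁻ x, W x ^ (2 * m - 2) *
        (2 * (∑ j ∈ Finset.range M, XX b H x j) + ∑ j ∈ Finset.range M, ‖Fi (H j) x‖ₑ ^ 2)
      ≤ ∫⁻ x, ((3 * (W x ^ 2) ^ m + 2 * (∑ j ∈ Finset.range M, XX b H x j) ^ m) +
          (∑ j ∈ Finset.range M, ‖Fi (H j) x‖ₑ ^ 2) ^ m) := by
        refine lintegral_mono fun x => ?_
        have e1 := amgmR hm (W x ^ 2) (∑ j ∈ Finset.range M, XX b H x j)
        have e2 := amgmR hm (W x ^ 2) (∑ j ∈ Finset.range M, ‖Fi (H j) x‖ₑ ^ 2)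
        rw [hs2, mul_add]
        calc (W x ^ 2) ^ (m - 1) * (2 * ∑ j ∈ Finset.range M, XX b H x j) +
            (W x ^ 2) ^ (m - 1) * ∑ j ∈ Finset.range M, ‖Fi (H j) x‖ₑ ^ 2
            = 2 * ((W x ^ 2) ^ (m - 1) * ∑ j ∈ Finset.range M, XX b H x j) +
            (W x ^ 2) ^ (m - 1) * ∑ j ∈ Finset.range M, ‖Fi (H j) x‖ₑ ^ 2 := by ring
          _ ≤ 2 * ((W x ^ 2) ^ m + (∑ j ∈ Finset.range M, XX b H x j) ^ m) +
              ((W x ^ 2) ^ m + (∑ j ∈ Finset.range M, ‖Fi (H j) x‖ₑ ^ 2) ^ m) := by gcongr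
          _ = _ := by ring
    _ = (3 * (∫⁻ x, (W x ^ 2) ^ m) + 2 * ∫⁻ x, (∑ j ∈ Finset.range M, XX b H x j) ^ m) +
          Sr m M H := by
        have e1 : Measurable fun x => 3 * (W x ^ 2) ^ m := hWmm.const_mul _
        have e2 : Measurable fun x => 2 * (∑ j ∈ Finset.range M, XX b H x j) ^ m :=
          hXm.const_mul _
        have e3 : Measurable fun x => 3 * (W x ^ 2) ^ m +
          2 * (∑ j ∈ Finset.range M, XX b H x j) ^ m := e1.add e2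
        rw [lintegral_add_left e3, lintegral_add_left e1,
          lintegral_const_mul _ hWmm, lintegral_const_mul _ hXm]
        rfl
    _ ≤ (3 * (ENNReal.ofReal Ch * Nr m (Fi (sm H M))) +
          2 * (ENNReal.ofReal (Cd * Cl) * Nr m (Fi (sm H M)))) +
          ENNReal.ofReal Cl * Nr m (Fi (sm H M)) := by
        have e3 := hL M a b H hS
        gcongr
    _ = _ := by
        rw [ENNReal.ofReal_add (by positivity) hCl, ENNReal.ofReal_add (by positivity)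
          (by positivity), ENNReal.ofReal_mul (by norm_num : (0 : ℝ) ≤ 3),
          ENNReal.ofReal_mul (by norm_num : (0 : ℝ) ≤ 2),
          show ENNReal.ofReal 3 = 3 by norm_num, show ENNReal.ofReal 2 = 2 by norm_num]
        ring

/-- **LTM.** -/
theorem t (h1 : S_BAS) (hC : S_CNV) (h4 : S_HLM) (h6 : S_MAJ) (h7 : S_LOW) (h5 : R_DMX)
    (h8 : R_LPF) : R_LTM := by
  intro m μ hm hμ
  obtain ⟨C1, hC1, hMAJ⟩ := h6
  obtain ⟨C2, hC2, hLOW⟩ := h7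
  obtain ⟨cP, hcP0, hcP⟩ := SUQ.PP_mass
  have hs : 0 < 2 * m - 2 := by linarith
  obtain ⟨K, hK, hmom⟩ := lp_mom h1 (⌈4 * (2 * m - 2)⌉₊ + 4)
  obtain ⟨C3, hC3, hbd⟩ := bounds h1 h4 h5 h8 hm hμ
  obtain ⟨D, hD⟩ : ∃ D : ℝ, D = (1 + max 1 (2 * m - 2)) * (2 * C2) ^ (2 * m - 2) *
    √(2 * C1 ^ 2 * cP) * (2 * K) := ⟨_, rfl⟩
  have hD0 : 0 ≤ D := by rw [hD]; positivity
  refine ⟨D * C3, by positivity, fun om M a b H hom hS hgap => ?_⟩
  obtain ⟨W, hW⟩ : ∃ W : ℂ → ℝ≥0∞, W = mx (fun z => ‖Fi (sm H M) z‖ₑ) := ⟨_, rfl⟩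
  have hterm : ∀ k ∈ Finset.range M, ENNReal.ofReal
      |∫ x, ‖Fi (sm H k) x‖ ^ (2 * m - 2) * (conj (Fi (sm H k) x) * Fi (H k) x).re| ≤
      ENNReal.ofReal (D * om) *
        ∫⁻ x, W x ^ (2 * m - 2) * (SUQ.SS (XX b H x) k + ‖Fi (H k) x‖ₑ ^ 2) := by
    intro k hk
    have hkM := Finset.mem_range.1 hk
    have hBs := SUQ.Bd_sm hμ hS k hkM.le
    obtain ⟨-, -, hBA, -⟩ := hS k hkM
    obtain ⟨huc, -, ⟨-, -, Mu, hMu⟩, -⟩ := h1 _ _ hBs
    obtain ⟨-, -, ⟨-, hAi, -⟩, -⟩ := h1 _ _ (SUP.Bd_zero hBA)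
    have hI : Integrable fun x => gg (2 * m - 2) (Fi (sm H k) x) * Fi (H k) x := by
      refine hAi.bdd_mul (c := Mu ^ (2 * m - 2) * Mu) (gg_cont hs huc).aestronglyMeasurable ?_
      exact Eventually.of_forall (gg_bdd hs hMu)
    have hre : ∫ x, ‖Fi (sm H k) x‖ ^ (2 * m - 2) * (conj (Fi (sm H k) x) * Fi (H k) x).re =
        (∫ x, gg (2 * m - 2) (Fi (sm H k) x) * Fi (H k) x).re := by
      have e1 := integral_re hI
      have e2 : ∀ x, ‖Fi (sm H k) x‖ ^ (2 * m - 2) * (conj (Fi (sm H k) x) * Fi (H k) x).re =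
          RCLike.re (gg (2 * m - 2) (Fi (sm H k) x) * Fi (H k) x) := by
        intro x
        unfold gg
        rw [mul_assoc]
        show _ = (((‖Fi (sm H k) x‖ ^ (2 * m - 2) : ℝ) : ℂ) *
          (conj (Fi (sm H k) x) * Fi (H k) x)).re
        rw [Complex.re_ofReal_mul]
      simp only [e2]
      exact e1
    rw [hre]
    have hle : ENNReal.ofReal |(∫ x, gg (2 * m - 2) (Fi (sm H k) x) * Fi (H k) x).re| ≤
        ‖∫ x, gg (2 * m - 2) (Fi (sm H k) x) * Fi (H k) x‖ₑ := by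
      rw [← ofReal_norm]
      exact ENNReal.ofReal_le_ofReal (Complex.abs_re_le_norm _)
    refine hle.trans ?_
    cases k with
    | zero =>
      have e1 : ∀ x, gg (2 * m - 2) (Fi (sm H 0) x) * Fi (H 0) x = 0 := by
        intro x
        rw [SUQ.sm_zero, SUQ.Fi_zero, gg_zero, zero_mul]
      simp only [e1, integral_zero, enorm_zero]
      exact zero_le
    | succ k =>
      have e1 := step h1 hC hμ hS hs hC1 hC2 hcP0 hK (fun b h x y hb hh => (hMAJ b h x y hb hh).2)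
        hLOW hcP hmom hW hkM (hgap k hkM)
      rw [← hD] at e1
      exact e1
  refine (Finset.sum_le_sum hterm).trans ?_
  rw [← Finset.mul_sum]
  have h9 : ∑ k ∈ Finset.range M, ∫⁻ x, W x ^ (2 * m - 2) *
      (SUQ.SS (XX b H x) k + ‖Fi (H k) x‖ₑ ^ 2) ≤ ENNReal.ofReal C3 * Nr m (Fi (sm H M)) := by
    refine (sum_lint _ M).trans ?_
    refine le_trans (lintegral_mono fun x => ?_) (hbd M a b H hS)
    rw [← Finset.mul_sum, Finset.sum_add_distrib, ← hW]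
    refine mul_le_mul' le_rfl (add_le_add ?_ le_rfl)
    have e1 := SUQ.SS_sum (XX b H x) M
    rw [← e1]
    exact le_self_add
  calc ENNReal.ofReal (D * om) * ∑ k ∈ Finset.range M, ∫⁻ x, W x ^ (2 * m - 2) *
      (SUQ.SS (XX b H x) k + ‖Fi (H k) x‖ₑ ^ 2)
      ≤ ENNReal.ofReal (D * om) * (ENNReal.ofReal C3 * Nr m (Fi (sm H M))) := by gcongr
    _ = ENNReal.ofReal (D * C3 * om) * Nr m (Fi (sm H M)) := by
        rw [← mul_assoc, ← ENNReal.ofReal_mul (by positivity)]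
        congr 2
        ring

end Pool.Agent.H2.RP.LTM
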